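import Pool.Agent.H889R3.SA.Stmts

/-! Task B3 (Parseval) of the project H889-SA. -/

set_option autoImplicit false

namespace Pool.Agent.H784R3.SA

open Finset Pool.Agent.H572R2 Pool.Agent.H572R4.QA Pool.Agent.H572R4.QA.A1aux
  Pool.Agent.H572R4.QA.E1aux Pool.Agent.H889R3.SA

variable {N : ℕ}

theorem fh_eq (f : (Fin N → Bool) → ℝ) (T : Finset (Fin N)) :
    fh f T = (-1 : ℝ) ^ T.card * Pool.Agent.H722R2.AA.fc (tr f) T := by
  unfold Pool.Agent.H722R2.AA.fc fh EE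
  have h1 : ∑ u : Fin N → ℤˣ, tr f u * ∏ i ∈ T, Pool.Agent.H722R2.AA.sg u i
      = ∑ x : Fin N → Bool, f x * ∏ i ∈ T, (-1 : ℝ) ^ (x i).toNat := by
    rw [← Equiv.sum_comp (eqv N)]
    refine Finset.sum_congr rfl fun x _ => ?_
    simp only [tr]
    rw [Equiv.symm_apply_apply]
    congr 1
    refine Finset.prod_congr rfl fun i _ => ?_
    exact toU_cast (x i)
  rw [h1, Fintype.card_fin, ← mul_div_assoc, Finset.mul_sum]
  congr 1
  refine Finset.sum_congr rfl fun x _ => ?_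
  have h2 : ∏ i ∈ T, sg (x i) = (-1 : ℝ) ^ T.card * ∏ i ∈ T, (-1 : ℝ) ^ (x i).toNat := by
    rw [← Finset.prod_const, ← Finset.prod_mul_distrib]
    refine Finset.prod_congr rfl fun i _ => ?_
    cases h : x i <;> simp [sg]
  show f x * ∏ i ∈ T, sg (x i) = _
  rw [h2]
  ring

theorem fh_sq (f : (Fin N → Bool) → ℝ) (T : Finset (Fin N)) :
    fh f T ^ 2 = Pool.Agent.H722R2.AA.fc (tr f) T ^ 2 := by
  rw [fh_eq, mul_pow, ← pow_mul, mul_comm T.card 2, pow_mul]
  norm_num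

theorem taskB3 : TaskB3 := by
  intro N f
  refine ⟨fun i => ?_, ?_⟩
  · rw [inf1_eq_Inf, Pool.Agent.H746R2.AA.Inf_eq]
    refine Finset.sum_congr rfl fun S _ => ?_
    rw [fh_sq]
  · rw [var_eq_Cov, Pool.Agent.H746R2.AA.Cov_eq]
    have h1 : ∀ T : Finset (Fin N), (if T.Nonempty then fh f T ^ 2 else 0) =
        if T ≠ ∅ then Pool.Agent.H722R2.AA.fc (tr f) T * Pool.Agent.H722R2.AA.fc (tr f) T
          else 0 := by
      intro T
      rw [fh_sq, sq]
      simp only [Finset.nonempty_iff_ne_empty]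
    simp_rw [h1]
    rw [← Finset.sum_filter]
    refine Finset.sum_congr ?_ fun _ _ => rfl
    ext T
    simp

end Pool.Agent.H784R3.SA
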